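import Pool.Agent.Q33.Harm.Bala2

/-!
Bala's sequence satisfies `a(p^r) ≡ a(p^(r-1)) (mod p^(3r+3))` for `p ≥ 5` prime and `r ≥ 2`.

Proof.  In `ℤ_[p]`, with `x_j = p^r / j` for `1 ≤ j < p^r`, the `j`-th term is
`-x_j³ (1 - x_j) ∏_{i<j} (1 - x_i²)²` (`Terms`).  The terms with `p ∤ j` sum to
`-p^{3r} ∑ (1/j³)(1 - p^r/j) ∏`, where the products are constant modulo `p⁴` on blocks of
length `p^{r-1}` and `1` modulo `p²`; the sum vanishes modulo `p³` by the pairing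
`j ↔ p^r - j` and by `∑ 1/j³ ≡ 0 (mod p)` over blocks (`Bala`, `first_part`).  The term with
index `p j` is the `j`-th term for `p^{r-1}` times `∏_{i<pj, p∤i} (1 - p^{2r}/i²)²`, which is
`1 - 2 p^{2r} ∑_{i<pj, p∤i} 1/i² (mod p^{4r})`; the sums of inverse squares below `p^{s+1} i`
are divisible by `p^{s+1}`, and only the terms with `j = p^{r-2} i` matter; they cancel since
`∑_{i<p} 1/i² ≡ 0 (mod p)` (`Bala2`, `second_part`).
-/

namespace Pool.Agent.Results.MP_5eb62f_nt.PrimePowerSupercongruence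

open Finset

/-- the sequence -/
def a (n : ℕ) : ℕ :=
  if n = 0 then 1 else
    ∑ j ∈ range n, n.choose j * (n - 1).choose j * ((n + j - 1).choose j) ^ 2

open Q33.Harm in
theorem cast_a (p : ℕ) [hp : Fact p.Prime] (r : ℕ) : ((a (p ^ r) : ℕ) : ℤ_[p]) = 1 - E p r := by
  rw [a, if_neg (pow_ne_zero r hp.out.ne_zero), sum_eq_E]

/-- `p ^ (3r+3)` divides `a(p ^ r) - a(p ^ (r-1))` for every prime `p ≥ 5` and every `r ≥ 2`. -/
theorem result (p : ℕ) (hp : p.Prime) (h5 : 5 ≤ p) (r : ℕ) (hr : 2 ≤ r) :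
    (p : ℤ) ^ (3 * r + 3) ∣ (a (p ^ r) : ℤ) - (a (p ^ (r - 1)) : ℤ) := by
  have : Fact p.Prime := ⟨hp⟩
  rw [← PadicInt.pow_p_dvd_int_iff]
  obtain ⟨s, rfl⟩ : ∃ s, r = s + 1 := ⟨r - 1, by omega⟩
  rw [Nat.add_sub_cancel]
  push_cast
  rw [cast_a, cast_a, show 3 * (s + 1) + 3 = 3 * s + 6 by ring]
  have h := Q33.Harm.E_diff (p := p) h5 (r := s) (by omega)
  have e : (1 - Q33.Harm.E p (s + 1)) - (1 - Q33.Harm.E p s) =
      -(Q33.Harm.E p (s + 1) - Q33.Harm.E p s) := by ring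
  rw [e]
  exact (dvd_neg).mpr h

end Pool.Agent.Results.MP_5eb62f_nt.PrimePowerSupercongruence
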